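import Pool.Agent.Lib_MP_c563b5_an.Defs
import Pool.Agent.Lib_MP_c563b5_an.TP
import Pool.Agent.Lib_MP_c563b5_an.Poly
import Pool.Agent.Lib_MP_c563b5_an.Chain
import Pool.Agent.Lib_MP_c563b5_an.Bounds

set_option autoImplicit false

namespace Pool.Agent.Results.MP_c563b5_an.GapUnbounded

open Finset Polynomial

/-- roots in `[0,1]` give a totally positive sequence -/
lemma tp_of_roots {l : ℝ} (hl : 0 ≤ l) (R : Multiset ℝ) :
    (∀ ρ ∈ R, 0 ≤ ρ ∧ ρ ≤ 1) →
    TotallyPositive (seqOf (C l * (R.map fun ρ => X - C ρ).prod)) := by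
  induction R using Multiset.induction_on with
  | empty =>
    intro _
    have : seqOf (C l * ((0 : Multiset ℝ).map fun ρ => X - C ρ).prod) = fun _ => l := by
      funext k
      simp only [Multiset.map_zero, Multiset.prod_zero]
      rw [seqOf_C_mul, seqOf_one, mul_one]
    rw [this]
    exact totallyPositive_const hl
  | cons ρ R ih =>
    intro h
    have h1 := ih (fun x hx => h x (Multiset.mem_cons_of_mem hx))
    obtain ⟨hρ0, hρ1⟩ := h ρ (Multiset.mem_cons_self ρ R)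
    have h2 := h1.step hρ0 hρ1
    convert h2 using 1
    funext k
    rw [Multiset.map_cons, Multiset.prod_cons,
      show C l * ((X - C ρ) * (R.map fun ρ => X - C ρ).prod)
        = X * (C l * (R.map fun ρ => X - C ρ).prod) - C ρ * (C l * (R.map fun ρ => X - C ρ).prod)
        from by ring]
    rw [seqOf_sub, seqOf_X_mul, seqOf_C_mul]

/-- the polynomial attached to `(k+1)^N` -/
noncomputable def E0 : ℕ → ℝ[X]
  | 0 => 1
  | (N + 1) => T 1 (E0 N)

lemma seqOf_E0 (N k : ℕ) : seqOf (E0 N) k = ((k : ℝ) + 1) ^ N := by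
  induction N with
  | zero => simp [E0, seqOf_one]
  | succ N ih => rw [E0, seqOf_T, ih]; ring

lemma T_eval_one (c : ℝ) (E : ℝ[X]) : (T c E).eval 1 = c * E.eval 1 := by
  rw [T_eval]; ring

lemma T_eval_zero (c : ℝ) (E : ℝ[X]) : (T c E).eval 0 = (c - 1) * E.eval 0 := by
  rw [T_eval]; ring

lemma E0_eval_one (N : ℕ) : (E0 N).eval 1 = 1 := by
  induction N with
  | zero => simp [E0]
  | succ N ih => rw [E0, T_eval_one, ih, one_mul]

lemma E0_eval_zero (N : ℕ) : (E0 (N + 1)).eval 0 = 0 := by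
  rw [E0, T_eval_zero]; ring

lemma E0_natDegree (N : ℕ) : (E0 N).natDegree ≤ N := by
  induction N with
  | zero => simp [E0]
  | succ N ih => exact T_natDegree_le ih

/-- a polynomial which is positive at `1` is positive to the left of `1` -/
lemma pos_near_one {ε : ℝ} {E : ℝ[X]} (h : 0 < ε * E.eval 1) :
    ∃ a₀ : ℝ, 0 ≤ a₀ ∧ a₀ < 1 ∧ ∀ a, a₀ < a → a < 1 → 0 < ε * E.eval a := by
  have hcont : ContinuousAt (fun x => ε * E.eval x) 1 :=
    (continuous_const.mul E.continuous).continuousAt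
  have hev := hcont.eventually (lt_mem_nhds h)
  obtain ⟨δ, hδ, hδ'⟩ := Metric.eventually_nhds_iff.1 hev
  refine ⟨max 0 (1 - δ), le_max_left _ _, ?_, ?_⟩
  · exact max_lt one_pos (by linarith)
  · intro a ha ha1
    apply hδ'
    have := (max_lt_iff.1 ha).2
    rw [Real.dist_eq, abs_lt]
    constructor <;> linarith

lemma chain_E0 (N : ℕ) : ∃ a₀ : ℝ, 0 ≤ a₀ ∧ a₀ < 1 ∧ ∀ a, a₀ < a → a < 1 →
    Chain (fun u => (E0 (N + 1)).eval u) N (-1) a := by
  induction N with
  | zero => exact ⟨0, le_rfl, one_pos, fun a _ _ => trivial⟩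
  | succ N ih =>
    obtain ⟨a₀, h0, h1, h2⟩ := ih
    obtain ⟨b₀, k0, k1, k2⟩ := pos_near_one (ε := 1) (E := E0 (N + 1))
      (by rw [E0_eval_one]; norm_num)
    refine ⟨max a₀ b₀, h0.trans (le_max_left _ _), max_lt h1 k1, ?_⟩
    intro a ha ha1
    obtain ⟨ha', ha''⟩ := max_lt_iff.1 ha
    have hR := rolleStep_T (c := 1) le_rfl (E := E0 (N + 1)) (Or.inr (E0_eval_zero N))
    exact hR.chain N (h0.trans_lt ha') ha1 (k2 a ha'' ha1) (h2 a ha' ha1)

lemma seqOf_G1 (m N k : ℕ) : seqOf (T (-((m : ℝ) + 1 / 2)) (E0 N)) k = A m N 1 k := by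
  rw [seqOf_T, seqOf_E0, A]; ring

lemma seqOf_G2 (m N k : ℕ) :
    seqOf (T (-((m : ℝ) + 1 / 2)) (T (-((m : ℝ) + 1 / 2)) (E0 N))) k = A m N 2 k := by
  rw [seqOf_T, seqOf_T, seqOf_E0, A]; ring

lemma hasSum_G {m N j : ℕ} {G : ℝ[X]} (hG : ∀ k, seqOf G k = A m N j k) {t : ℝ} (ht : 0 < t)
    (ht' : t ≤ 1 / 36) :
    HasSum (fun k : ℕ => A m N j k * (-t) ^ k) (1 / (1 + t) * G.eval (1 / (1 + t))) := by
  have h := hasSum_seqOf G (t := t) (by rw [abs_of_pos ht]; linarith)
  simp_rw [hG] at h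
  exact h

/-- Main analytic result: for `N` large the polynomial attached to `(k+1)^N (k-(m+1/2))^2`
has all its `N + 2` zeros in `[0,1)`. -/
lemma zeros_G2 (m N : ℕ)
    (hN : ((((m : ℝ) + 1) * (m + 3)) / ((m + 2) ^ 2)) ^ (N + 1) ≤ 1 / 1296) :
    ∃ S : Finset ℝ, S.card = N + 2 ∧ ∀ x ∈ S, 0 < x ∧ x < 1 ∧
      (T (-((m : ℝ) + 1 / 2)) (T (-((m : ℝ) + 1 / 2)) (E0 (N + 1)))).eval x = 0 := by
  set y : ℝ := (m : ℝ) + 1 / 2 with hy
  have hy0 : 0 < y := by positivity
  set G1 := T (-y) (E0 (N + 1)) with hG1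
  set G2 := T (-y) G1 with hG2
  have sG1 : ∀ k, seqOf G1 k = A m (N + 1) 1 k := seqOf_G1 m (N + 1)
  have sG2 : ∀ k, seqOf G2 k = A m (N + 1) 2 k := seqOf_G2 m (N + 1)
  have R1 := rolleStep_T (c := -y) (by linarith) (E := E0 (N + 1)) (Or.inl (by linarith))
  have R2 := rolleStep_T (c := -y) (by linarith) (E := G1) (Or.inl (by linarith))
  have hττ : τ (N + 1) m < τ (N + 1) (m + 1) := by
    unfold τ
    apply mul_lt_mul_of_pos_left _ (by norm_num)
    apply pow_lt_pow_left₀ _ (by positivity) (by omega)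
    push_cast
    rw [div_lt_div_iff₀ (by positivity) (by positivity)]
    nlinarith
  have h0 := τ_pos (N + 1) m
  have h0' := τ_pos (N + 1) (m + 1)
  set w : ℝ := 1 / (1 + τ (N + 1) m) with hw
  set v : ℝ := 1 / (1 + τ (N + 1) (m + 1)) with hv
  have hv0 : 0 < v := by positivity
  have hvw : v < w := by
    rw [hv, hw]
    apply one_div_lt_one_div_of_lt <;> linarith
  have hw1 : w < 1 := by
    rw [hw, div_lt_one (by positivity)]
    linarith
  -- sign of G1 on [v, w]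
  have hsign1 : ∀ u, v ≤ u → u ≤ w → 0 < (-1) ^ (m + 1) * G1.eval u := by
    intro u hvu huw
    have hu0 : 0 < u := hv0.trans_le hvu
    have e1 : τ (N + 1) m ≤ 1 / u - 1 := by
      have : 1 + τ (N + 1) m ≤ 1 / u := by
        rw [le_div_iff₀ hu0]
        rw [hw, le_div_iff₀ (by positivity)] at huw
        linarith
      linarith
    have e2 : 1 / u - 1 ≤ τ (N + 1) (m + 1) := by
      have : 1 / u ≤ 1 + τ (N + 1) (m + 1) := by
        rw [div_le_iff₀ hu0]
        rw [hv, div_le_iff₀ (by positivity)] at hvu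
        linarith
      linarith
    have ht0 : 0 < 1 / u - 1 := h0.trans_le e1
    have hu : 1 / (1 + (1 / u - 1)) = u := by field_simp; ring
    have hs := hasSum_G sG1 ht0 (e2.trans (τ_le _ _))
    rw [hu] at hs
    have key := sign_two ht0 hs (A_ne_zero _ _ _ _) (by
      simp only [A]
      push_cast
      have e3 : (-1 : ℝ) ^ m * (((m : ℝ) + 1) ^ (N + 1) * ((m : ℝ) - (m + 1 / 2)) ^ 1)
          * ((-1) ^ (m + 1) * (((m : ℝ) + 1 + 1) ^ (N + 1) * ((m : ℝ) + 1 - (m + 1 / 2)) ^ 1))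
          = ((-1) ^ m * (-1) ^ m) * (1 / 4 * (((m : ℝ) + 1) ^ (N + 1)
            * ((m : ℝ) + 1 + 1) ^ (N + 1))) := by ring
      rw [e3, ← mul_pow]
      norm_num
      positivity)
      (A_up (Or.inl rfl) (Nat.le_succ m) e2) (A_down (Or.inl rfl) (Nat.le_succ m) hN e1)
    simp only [A] at key
    have e4 : (-1) ^ m * (((m : ℝ) + 1) ^ (N + 1) * ((m : ℝ) - (m + 1 / 2)) ^ 1)
        * (u * G1.eval u)
        = (1 / 2 * ((m : ℝ) + 1) ^ (N + 1) * u) * ((-1) ^ (m + 1) * G1.eval u) := by ring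
    rw [e4] at key
    exact (pos_iff_pos_of_mul_pos key).1 (by positivity)
  -- sign of G2 at w and v
  have hsign2 : ∀ K, m ≤ K → K ≤ m + 1 →
      0 < (-1) ^ K * G2.eval (1 / (1 + τ (N + 1) K)) := by
    intro K hmK hKm
    have hs := hasSum_G sG2 (τ_pos (N + 1) K) (τ_le _ _)
    have key := sign_one (τ_pos (N + 1) K) hs (A_ne_zero _ _ _ _)
      (A_up (Or.inr rfl) hmK le_rfl) (A_down (Or.inr rfl) hKm hN le_rfl)
    have hApos : 0 < A m (N + 1) 2 K := by
      have := A_ne_zero m (N + 1) 2 K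
      have h2 : 0 ≤ A m (N + 1) 2 K := by unfold A; positivity
      exact lt_of_le_of_ne h2 this.symm
    have := τ_pos (N + 1) K
    have e4 : (-1) ^ K * A m (N + 1) 2 K * (1 / (1 + τ (N + 1) K) *
        G2.eval (1 / (1 + τ (N + 1) K)))
        = (A m (N + 1) 2 K * (1 / (1 + τ (N + 1) K)))
          * ((-1) ^ K * G2.eval (1 / (1 + τ (N + 1) K))) := by ring
    rw [e4] at key
    exact (pos_iff_pos_of_mul_pos key).1 (by positivity)
  have hgw := hsign2 m le_rfl (Nat.le_succ m)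
  have hgv := hsign2 (m + 1) (Nat.le_succ m) le_rfl
  -- chain for E0
  obtain ⟨a₀, ha0, ha1, hchain⟩ := chain_E0 N
  obtain ⟨b₀, hb0, hb1, hpos⟩ := pos_near_one (ε := 1) (E := E0 (N + 1))
    (by rw [E0_eval_one]; norm_num)
  obtain ⟨c₀, hc0, hc1, hneg⟩ := pos_near_one (ε := -1) (E := G1)
    (by rw [hG1, T_eval_one, E0_eval_one]; linarith)
  obtain ⟨a, haM, ha1'⟩ := exists_between
    (show max (max a₀ b₀) (max c₀ w) < 1 from max_lt (max_lt ha1 hb1) (max_lt hc1 hw1))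
  obtain ⟨hM1, hM2⟩ := max_lt_iff.1 haM
  obtain ⟨haa, hba⟩ := max_lt_iff.1 hM1
  obtain ⟨hca, hwa⟩ := max_lt_iff.1 hM2
  have hapos : 0 < a := ha0.trans_lt haa
  have ch1 : Chain (fun u => G1.eval u) (N + 1) (-1) a :=
    R1.chain N hapos ha1' (hpos a hba ha1') (hchain a haa ha1')
  have ch2 : Chain (fun u => G1.eval u) N (- -1) a := by
    obtain ⟨s, hs0, hsa, hs, hc'⟩ := ch1
    exact hc'.mono hsa.le
  have ch3 : Chain (fun u => G2.eval u) (N + 3) (- -1) a := by
    refine R2.chain_insert hv0 hvw hw1 hsign1 (neg_one_pow_eq_or ℝ (m + 1)) ?_ hgv N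
      (Or.inr rfl) hwa ha1' (hneg a hca ha1') ch2
    have : -(-1 : ℝ) ^ (m + 1) = (-1) ^ m := by ring
    rw [this]
    exact hgw
  obtain ⟨s, hs0, hsa, hs, hc'⟩ := ch3
  obtain ⟨S, hS, hS'⟩ := Chain.zeros G2.continuous (N + 2) hs hc'
  exact ⟨S, hS, fun x hx => ⟨(hS' x hx).1, (hS' x hx).2.1.trans (hsa.trans ha1'), (hS' x hx).2.2⟩⟩

/-- For `N` large the sequence `(k+1)^N (k-(m+1/2))^2` is totally positive. -/
lemma totallyPositive_A (m N : ℕ)
    (hN : ((((m : ℝ) + 1) * (m + 3)) / ((m + 2) ^ 2)) ^ (N + 1) ≤ 1 / 1296) :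
    TotallyPositive (A m (N + 1) 2) := by
  obtain ⟨S, hS, hS'⟩ := zeros_G2 m N hN
  set G2 := T (-((m : ℝ) + 1 / 2)) (T (-((m : ℝ) + 1 / 2)) (E0 (N + 1))) with hG2
  have hy0 : 0 < (m : ℝ) + 1 / 2 := by positivity
  have hval1 : 0 < G2.eval 1 := by
    rw [hG2, T_eval_one, T_eval_one, E0_eval_one]
    nlinarith
  have hne : G2 ≠ 0 := by
    intro h
    rw [h] at hval1
    simp at hval1
  have hval0 : G2.eval 0 = 0 := by
    rw [hG2, T_eval_zero, T_eval_zero, E0_eval_zero]; ring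
  have hdeg : G2.natDegree ≤ N + 3 := by
    have h1 := T_natDegree_le (c := -((m : ℝ) + 1 / 2)) (E0_natDegree (N + 1))
    have h2 := T_natDegree_le (c := -((m : ℝ) + 1 / 2)) h1
    exact h2
  have h0S : (0 : ℝ) ∉ S := fun h => lt_irrefl _ (hS' 0 h).1
  have hcard' : (insert 0 S).card = N + 3 := by
    rw [card_insert_of_notMem h0S, hS]
  have hsub : insert 0 S ⊆ G2.roots.toFinset := by
    intro x hx
    rw [Multiset.mem_toFinset, mem_roots hne, IsRoot.def]
    rw [mem_insert] at hx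
    rcases hx with rfl | hx
    · exact hval0
    · exact (hS' x hx).2.2
  have hle1 : (insert 0 S).card ≤ G2.roots.toFinset.card := card_le_card hsub
  have hle2 : G2.roots.toFinset.card ≤ Multiset.card G2.roots := Multiset.toFinset_card_le _
  have hle3 : Multiset.card G2.roots ≤ G2.natDegree := card_roots' G2
  have hroots : Multiset.card G2.roots = G2.natDegree := by omega
  have heq : insert 0 S = G2.roots.toFinset :=
    Finset.eq_of_subset_of_card_le hsub (by omega)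
  have hmem : ∀ ρ ∈ G2.roots, 0 ≤ ρ ∧ ρ < 1 := by
    intro ρ hρ
    rw [← Multiset.mem_toFinset, ← heq, mem_insert] at hρ
    rcases hρ with rfl | hρ
    · exact ⟨le_rfl, one_pos⟩
    · exact ⟨(hS' ρ hρ).1.le, (hS' ρ hρ).2.1⟩
  have hfact := C_leadingCoeff_mul_prod_multiset_X_sub_C hroots
  have hlead : 0 ≤ G2.leadingCoeff := by
    by_contra hcon
    push Not at hcon
    rw [← hfact, eval_mul, eval_C, eval_multiset_prod, Multiset.map_map] at hval1
    have : 0 ≤ (G2.roots.map (eval 1 ∘ fun a => X - C a)).prod := by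
      apply Multiset.prod_nonneg
      intro z hz
      rw [Multiset.mem_map] at hz
      obtain ⟨ρ, hρ, rfl⟩ := hz
      simp only [Function.comp_apply, eval_sub, eval_X, eval_C]
      have := (hmem ρ hρ).2
      linarith
    nlinarith
  have hTP := tp_of_roots hlead G2.roots (fun ρ hρ => ⟨(hmem ρ hρ).1, (hmem ρ hρ).2.le⟩)
  rw [hfact] at hTP
  have : seqOf G2 = A m (N + 1) 2 := by
    funext k
    exact seqOf_G2 m (N + 1) k
  rwa [this] at hTP

/-- **Answer to Q1 (negative)**: the gaps between consecutive zeros of admissible polynomials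
are unbounded. -/
theorem result : ∀ d : ℝ, ∃ n : ℕ, 2 ≤ n ∧ ∃ (P : Polynomial ℝ) (x : Fin n → ℝ),
    Admissible n P x ∧ ∃ (j : ℕ) (hj : j + 1 < n),
      d < x ⟨j + 1, hj⟩ - x ⟨j, Nat.lt_of_succ_lt hj⟩ := by
  intro d
  obtain ⟨m, hm⟩ := exists_nat_gt d
  have hq1 : (((m : ℝ) + 1) * (m + 3)) / ((m + 2) ^ 2) < 1 := by
    rw [div_lt_one (by positivity)]
    nlinarith
  obtain ⟨M, hM⟩ := exists_pow_lt_of_lt_one (show (0 : ℝ) < 1 / 1296 by norm_num) hq1
  obtain ⟨N, rfl⟩ : ∃ N, M = N + 1 := by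
    cases M with
    | zero => norm_num at hM
    | succ N => exact ⟨N, rfl⟩
  have hTP := totallyPositive_A m N hM.le
  set y : ℝ := (m : ℝ) + 1 / 2 with hy
  let x : Fin (N + 1 + 2) → ℝ := fun i => if (i : ℕ) < N + 1 then -1 else y
  let P : ℝ[X] := C 1 * ∏ i : Fin (N + 1 + 2), (X - C (x i))
  have hP : ∀ k : ℕ, P.eval (k : ℝ) = A m (N + 1) 2 k := by
    intro k
    simp only [P, map_one, one_mul]
    rw [eval_prod, Fin.prod_univ_castSucc, Fin.prod_univ_castSucc]
    have e1 : ∀ i : Fin (N + 1), x i.castSucc.castSucc = -1 := by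
      intro i
      simp only [x, Fin.val_castSucc]
      rw [if_pos i.isLt]
    have e2 : x (Fin.last (N + 1)).castSucc = y := by
      simp [x]
    have e3 : x (Fin.last (N + 1 + 1)) = y := by
      simp [x]
    simp only [e1, e2, e3, eval_sub, eval_X, eval_C, prod_const, card_univ, Fintype.card_fin, A,
      hy]
    ring
  refine ⟨N + 1 + 2, by omega, P, x, ⟨⟨1, one_ne_zero, rfl⟩, ?_, ?_⟩, N, by omega, ?_⟩
  · intro i j hij
    have hij' : (i : ℕ) ≤ j := hij
    simp only [x]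
    split_ifs with h1 h2 h2
    · exact le_rfl
    · have : 0 < y := by positivity
      linarith
    · omega
    · exact le_rfl
  · have : (fun k : ℕ => P.eval (k : ℝ)) = A m (N + 1) 2 := funext hP
    rw [this]
    exact hTP
  · simp only [x]
    rw [if_neg (by simp), if_pos (by simp)]
    linarith

end Pool.Agent.Results.MP_c563b5_an.GapUnbounded
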